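import Pool.Agent.Helper93.LCH.Basic3

/-!
Row RKA of `lch_mods`: rank one, Ore case.
-/

set_option autoImplicit false

namespace LCH82

open LCH

universe u v

variable {K : Type u} [Field K] {G : Type v} [Group G]

/-- translations as a monoid homomorphism -/
noncomputable def trH (K : Type u) [Field K] (L : Subgroup G) (s : Sit G) (hs : L ≤ s.M) :
    L →* Module.End K (s.V K) where
  toFun g := s.tr K g.1
  map_one' := tr_one
  map_mul' g h := (tr_mul (hs g.2) (hs h.2)).symm

/-- the action of the group algebra -/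
noncomputable def thA (K : Type u) [Field K] (L : Subgroup G) (s : Sit G) (hs : L ≤ s.M) :
    MonoidAlgebra K L →ₐ[K] Module.End K (s.V K) :=
  MonoidAlgebra.lift K _ L (trH K L s hs)

theorem trH_apply (L : Subgroup G) (s : Sit G) (hs : L ≤ s.M) (g : L) :
    trH K L s hs g = s.tr K g.1 := rfl

theorem thA_single (L : Subgroup G) (s : Sit G) (hs : L ≤ s.M) (g : L) (c : K) :
    thA K L s hs (MonoidAlgebra.single g c) = c • s.tr K g.1 := by
  unfold thA
  rw [MonoidAlgebra.lift_single, trH_apply]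

theorem thA_apply (L : Subgroup G) (s : Sit G) (hs : L ≤ s.M) (f : MonoidAlgebra K L) :
    thA K L s hs f = ∑ g ∈ f.coeff.support, f.coeff g • s.tr K g.1 := by
  unfold thA
  rw [MonoidAlgebra.lift_apply, Finsupp.sum]
  simp only [trH_apply]

theorem vc_thA (hMVC : ST_MVC.{u, v}) (L : Subgroup G) (s : Sit G) (hs : L ≤ s.M)
    (f : MonoidAlgebra K L) (hf : f ≠ 0) : VC s (thA K L s hs f) := by
  classical
  rw [thA_apply]
  have hne : f.coeff.support.Nonempty := by
    rw [Finsupp.support_nonempty_iff]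
    intro h
    exact hf (MonoidAlgebra.coeff_eq_zero.1 h)
  obtain ⟨n, hn⟩ : ∃ n, f.coeff.support.card = n + 1 :=
    ⟨f.coeff.support.card - 1, by have := hne.card_pos; omega⟩
  have e : f.coeff.support ≃ Fin (n + 1) := Finset.equivFinOfCardEq hn
  have h1 : ∑ g ∈ f.coeff.support, f.coeff g • s.tr K g.1
      = ∑ i : Fin (n + 1), f.coeff (e.symm i).1 • s.tr K (e.symm i).1.1 := by
    rw [← Finset.sum_coe_sort f.coeff.support (fun g => f.coeff g • s.tr K g.1)]
    exact (Equiv.sum_comp e.symm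
      (fun g : f.coeff.support => f.coeff g.1 • s.tr K g.1.1)).symm
  rw [h1]
  refine hMVC K G s n (fun i => f.coeff (e.symm i).1 • s.tr K (e.symm i).1.1)
    (fun i x => (e.symm i).1.1 * x) (fun i => ?_) (fun i j hij x _ h => ?_)
  · exact (VCw_tr (hs (e.symm i).1.2)).smul (Finsupp.mem_support_iff.1 (e.symm i).2)
  · apply hij
    have h2 : (e.symm i).1.1 = (e.symm j).1.1 := mul_right_cancel h
    exact e.symm.injective (Subtype.ext (Subtype.ext h2))

/-- the action of the group algebra in all situations -/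
noncomputable def thJ (K : Type u) [Field K] (L : Subgroup G) :
    MonoidAlgebra K L →+* AlgJ K L :=
  RingHom.pi fun s => (thA K L s.1 s.2).toRingHom

/-- Row RKA. -/
theorem st_RKA (hFRE : ST_FRE.{u, v}) (hMVC : ST_MVC.{u, v}) : ST_RKA.{u, v} := by
  intro K _ G _ L hO e he
  by_cases hne : Nonempty {s : Sit G // L ≤ s.M}
  swap
  · left
    intro s hs
    exact (hne ⟨s, hs⟩).elim
  obtain ⟨s0⟩ := hne
  have hvc : ∀ f : MonoidAlgebra K L, f ≠ 0 → ∀ s : {s : Sit G // L ≤ s.M},
      VC s.1 (thJ K L f s) := fun f hf s => vc_thA hMVC L s.1 s.2 f hf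
  refine hFRE K G L (thJ K L).range ?_ ?_ ?_ e he
  · rintro _ ⟨f, rfl⟩ hx s
    exact hvc f (by
      rintro rfl
      exact hx (map_zero _)) s
  · rintro _ ⟨f, rfl⟩ _ ⟨g, rfl⟩ hb
    obtain ⟨c, d, hd, hcd⟩ := hO f g (by
      rintro rfl
      exact hb (map_zero _))
    refine ⟨_, ⟨c, rfl⟩, _, ⟨d, rfl⟩, ?_, ?_⟩
    · intro h0
      have := (hvc d hd s0).ne_zero
      rw [h0] at this
      exact this rfl
    · rw [← map_mul, ← map_mul, hcd]
  · intro c g hg
    refine ⟨MonoidAlgebra.single ⟨g, hg⟩ c, ?_⟩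
    funext s
    exact thA_single L s.1 s.2 ⟨g, hg⟩ c

end LCH82
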