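import Pool.Agent.Helper93.LCH.Stmts

/-!
Row UEI of `lch_mods`: expansion of an inverse.
-/

set_option autoImplicit false

namespace LCH82

open LCH

universe u v w

/-! ### measures -/

section Meas

variable {T : Type w} [MSys T]

theorem lt_irrefl' (a : T) : ¬ MSys.lt a a := by
  intro h
  exact (MSys.wf (T := T)).irrefl.irrefl a h

theorem zero_lt_iv (a : T) : MSys.lt (0 : T) (MSys.iv a) := by
  apply MSys.pos
  intro h
  have h1 : MSys.lt (MSys.o : T) 0 := by
    have := MSys.o_lt a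
    rwa [h] at this
  have h2 : MSys.lt (0 : T) MSys.o := MSys.pos _ MSys.o_ne
  exact lt_irrefl' _ (MSys.tr _ _ _ h2 h1)

theorem lt_of_lt_of_mle {a b c : T} (h1 : MSys.lt a b) (h2 : mle b c) : MSys.lt a c := by
  rcases h2 with h | h
  · rwa [← h]
  · exact MSys.tr _ _ _ h1 h

theorem sum_lt_iv {ι : Type*} (a : T) (f : ι → T) (F : Finset ι)
    (h : ∀ i ∈ F, MSys.lt (f i) (MSys.iv a)) : MSys.lt (∑ i ∈ F, f i) (MSys.iv a) := by
  classical
  induction F using Finset.induction_on with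
  | empty => simpa using zero_lt_iv a
  | insert i F hi ih =>
    rw [Finset.sum_insert hi]
    exact MSys.iv_add _ _ _ (h i (Finset.mem_insert_self _ _))
      (ih fun j hj => h j (Finset.mem_insert_of_mem hj))

end Meas

/-! ### expansions -/

section Exp

variable {A : Type w} [Ring A]

theorem growth {Φ : FR A} {x : A} {S : Set ℝ} {y : ℝ → A} (h : Expn Φ x S y) (B : ℝ) :
    ∃ R : ℝ, ∀ r ∈ S, R ≤ r → y r ∈ Φ.F B := by
  classical
  obtain ⟨h1, h2, h3⟩ := h
  obtain ⟨B', hB'⟩ := h3 B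
  refine ⟨B', fun r hr hBr => ?_⟩
  have hfin : (S ∩ Set.Iio (r + 1)).Finite := h1 _
  -- the next element
  obtain ⟨r', hr', hr1'⟩ : ∃ r' : ℝ, r < r' ∧ ∀ s ∈ S, s < r' → s ≤ r := by
    rcases (hfin.toFinset.filter (fun s => r < s)).eq_empty_or_nonempty with h0 | h0
    · refine ⟨r + 1, by linarith, fun s hs hs' => ?_⟩
      by_contra hcon
      push Not at hcon
      have : s ∈ hfin.toFinset.filter (fun s => r < s) := by
        simp [hs, hs', hcon]
      rw [h0] at this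
      simp at this
    · have hm := Finset.min'_mem _ h0
      rw [Finset.mem_filter] at hm
      refine ⟨_, hm.2, fun s hs hs' => ?_⟩
      by_contra hcon
      push Not at hcon
      have hlt : (hfin.toFinset.filter (fun s => r < s)).min' h0 < r + 1 := by
        have := hm.1
        rw [Set.Finite.mem_toFinset] at this
        exact this.2
      have : s ∈ hfin.toFinset.filter (fun s => r < s) := by
        simp only [Finset.mem_filter, Set.Finite.mem_toFinset, Set.mem_inter_iff, Set.mem_Iio]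
        exact ⟨⟨hs, by linarith⟩, hcon⟩
      have := Finset.min'_le _ _ this
      linarith
  have hf1 : (S ∩ Set.Iio r).Finite := h1 _
  have hf2 : (S ∩ Set.Iio r').Finite := h1 _
  have e1 := hB' r hBr hf1.toFinset (by simp)
  have e2 := hB' r' (by linarith) hf2.toFinset (by simp)
  have e3 : hf2.toFinset = insert r hf1.toFinset := by
    ext s
    simp only [Set.Finite.mem_toFinset, Set.mem_inter_iff, Set.mem_Iio, Finset.mem_insert]
    constructor
    · rintro ⟨hs, hs'⟩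
      rcases (hr1' s hs hs').lt_or_eq with h | h
      · exact Or.inr ⟨hs, h⟩
      · exact Or.inl h
    · rintro (rfl | ⟨hs, hs'⟩)
      · exact ⟨hr, hr'⟩
      · exact ⟨hs, by linarith⟩
  rw [e3, Finset.sum_insert (by simp)] at e2
  have := (Φ.F B).sub_mem e1 e2
  have e4 : x - ∑ r ∈ hf1.toFinset, y r - (x - (y r + ∑ r ∈ hf1.toFinset, y r)) = y r := by
    abel
  rwa [e4] at this

theorem Expn.mono' {Φ Φ' : FR A} (hΦ : ∀ B, Φ.F B ≤ Φ'.F B) {x : A} {S : Set ℝ} {y : ℝ → A}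
    (h : Expn Φ x S y) : Expn Φ' x S y := by
  obtain ⟨h1, h2, h3⟩ := h
  refine ⟨h1, fun r hr => ?_, fun B => ?_⟩
  · obtain ⟨b, hb⟩ := h2 r hr
    exact ⟨b, hΦ b hb⟩
  · obtain ⟨B', hB'⟩ := h3 B
    exact ⟨B', fun B'' hB'' T hT => hΦ B (hB' B'' hB'' T hT)⟩

/-- Removing the vanishing part and the constant term. -/
theorem expn_eta {Φ : FR A} {x : A} {S : Set ℝ} {y : ℝ → A} (h : Expn Φ x S y) (h0 : (0 : ℝ) ∈ S)
    (hy0 : y 0 = 1) (hneg : ∀ r ∈ S, r < 0 → y r = 0) :
    Expn Φ (x - 1) {r | 0 < r ∧ r ∈ S} y := by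
  classical
  obtain ⟨h1, h2, h3⟩ := h
  refine ⟨fun B => (h1 B).subset fun r hr => ⟨hr.1.2, hr.2⟩, fun r hr => h2 r hr.2, fun B => ?_⟩
  obtain ⟨B', hB'⟩ := h3 B
  refine ⟨max B' 1, fun B'' hB'' T hT => ?_⟩
  have hf : (S ∩ Set.Iio B'').Finite := h1 _
  have e1 := hB' B'' (le_trans (le_max_left _ _) hB'') hf.toFinset (by simp)
  have h01 : (1 : ℝ) ≤ B'' := le_trans (le_max_right _ _) hB''
  have e2 : ∑ r ∈ hf.toFinset, y r = ∑ r ∈ insert 0 T, y r := by
    symm
    apply Finset.sum_subset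
    · intro r hr
      rw [Finset.mem_insert] at hr
      simp only [Set.Finite.mem_toFinset, Set.mem_inter_iff, Set.mem_Iio]
      rcases hr with rfl | hr
      · exact ⟨h0, by linarith⟩
      · rw [hT] at hr
        exact ⟨hr.1.2, hr.2⟩
    · intro r hr hr'
      simp only [Set.Finite.mem_toFinset, Set.mem_inter_iff, Set.mem_Iio] at hr
      rw [Finset.mem_insert, not_or, hT] at hr'
      apply hneg r hr.1
      by_contra hcon
      push Not at hcon
      rcases hcon.lt_or_eq with h | h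
      · exact hr'.2 ⟨⟨h, hr.1⟩, hr.2⟩
      · exact hr'.1 h.symm
  have e3 : (0 : ℝ) ∉ T := by
    rw [hT]
    intro h
    exact lt_irrefl _ h.1.1
  rw [e2, Finset.sum_insert e3, hy0] at e1
  have e4 : x - (1 + ∑ r ∈ T, y r) = x - 1 - ∑ r ∈ T, y r := by abel
  rwa [e4] at e1

theorem mem_of_expn {Φ : FR A} {x : A} {S : Set ℝ} {y : ℝ → A} (h : Expn Φ x S y) (B : ℝ)
    (hy : ∀ r ∈ S, y r ∈ Φ.F B) : x ∈ Φ.F B := by
  obtain ⟨h1, h2, h3⟩ := h
  obtain ⟨B', hB'⟩ := h3 B
  have hf : (S ∩ Set.Iio B').Finite := h1 _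
  have e1 := hB' B' le_rfl hf.toFinset (by simp)
  have e2 : ∑ r ∈ hf.toFinset, y r ∈ Φ.F B := by
    apply AddSubgroup.sum_mem
    intro r hr
    rw [Set.Finite.mem_toFinset] at hr
    exact hy r hr.1
  have := (Φ.F B).add_mem e1 e2
  rwa [sub_add_cancel] at this

theorem can1 (x : A) : 1 + (x - 1) = x := by abel

theorem expn_congr {Φ : FR A} {x : A} {S : Set ℝ} {y y' : ℝ → A} (h : Expn Φ x S y)
    (hy : ∀ r ∈ S, y' r = y r) : Expn Φ x S y' := by
  obtain ⟨h1, h2, h3⟩ := h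
  refine ⟨h1, fun r hr => ?_, fun B => ?_⟩
  · rw [hy r hr]
    exact h2 r hr
  · obtain ⟨B', hB'⟩ := h3 B
    refine ⟨B', fun B'' hB'' T hT => ?_⟩
    have : ∑ r ∈ T, y' r = ∑ r ∈ T, y r := Finset.sum_congr rfl fun r hr => hy r ((hT r).1 hr).1
    rw [this]
    exact hB' B'' hB'' T hT

theorem expn_zero {Φ : FR A} (y : ℝ → A) : Expn Φ 0 ∅ y := by
  refine ⟨fun B => ?_, fun r hr => absurd hr (Set.notMem_empty r), fun B => ⟨0, ?_⟩⟩
  · rw [Set.empty_inter]
    exact Set.finite_empty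
  · intro B'' _ T hT
    have : T = ∅ := by
      ext r
      rw [hT]
      simp
    rw [this, Finset.sum_empty, sub_zero]
    exact (Φ.F B).zero_mem

end Exp

/-! ### operators -/

section Ops

variable {K : Type u} [Field K] {G : Type v} [Group G]

theorem char_one {M : Subgroup G} {χ : G → ℝ} (h : IsChar M χ) : χ 1 = 0 := by
  have := h 1 M.one_mem 1 M.one_mem
  rw [mul_one] at this
  linarith

theorem tr_one (s : Sit G) : s.tr K 1 = 1 := by
  unfold Sit.tr
  rw [dif_pos s.M.one_mem]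
  ext v x
  change v.1 (1⁻¹ * x) = v.1 x
  rw [inv_one, one_mul]

theorem exists_lead (s : Sit G) (v : s.V K) (hv : v ≠ 0) : ∃ x, Lead s v.1 x := by
  have : {x | v.1 x ≠ 0}.Nonempty := by
    by_contra h
    apply hv
    ext x
    by_contra hx
    exact h ⟨x, hx⟩
  obtain ⟨x, hx, hx'⟩ := v.2.2 _ this (fun x hx => hx)
  exact ⟨x, hx, fun y hy => hx' y hy⟩

theorem char_le (s : Sit G) {f : G → ℝ} (hf : IsChar s.M f) (hP : ∀ g ∈ s.P, 0 ≤ f g) {x y : G}
    (hx : x ∈ s.M) (h : s.lt x y) : f x ≤ f y := by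
  have h1 : x⁻¹ * y ∈ s.P := h
  have := hf x hx (x⁻¹ * y) (s.sub _ h1)
  rw [mul_inv_cancel_left] at this
  linarith [hP _ h1]

theorem fil_all (s : Sit G) {f : G → ℝ} (hf : IsChar s.M f) (hP : ∀ g ∈ s.P, 0 ≤ f g)
    (T : Module.End K (s.V K)) (h : ∀ B : ℝ, Fil s f B T) : T = 0 := by
  apply LinearMap.ext
  intro v
  by_contra hne
  have hv : v ≠ 0 := by
    rintro rfl
    exact hne (by simp)
  obtain ⟨x0, hx0⟩ := exists_lead s v hv
  obtain ⟨y0, hy0⟩ := exists_lead s (T v) (by simpa using hne)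
  have := h (f y0 - f x0 + 1) (f x0) v (fun x hx => by
    rcases hx0.2 x hx with h | h
    · rw [h]
    · exact char_le s hf hP (v.2.1 _ hx0.1) h) y0 hy0.1
  linarith

theorem vc_ne_zero (s : Sit G) (T : Module.End K (s.V K)) (h : VC s T) : T ≠ 0 := by
  classical
  rintro rfl
  obtain ⟨φ, _, _, _, hφ⟩ := h
  have hmem : (Pi.single 1 1 : G → K) ∈ s.V K := by
    refine ⟨fun x hx => ?_, fun A hA hA' => ?_⟩
    · by_cases h1 : x = 1
      · rw [h1]
        exact s.M.one_mem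
      · rw [Pi.single_eq_of_ne h1] at hx
        exact absurd rfl hx
    · have h1 : ∀ x ∈ A, x = 1 := by
        intro x hx
        by_contra h1
        have := hA' x hx
        rw [Pi.single_eq_of_ne h1] at this
        exact this rfl
      obtain ⟨x, hx⟩ := hA
      exact ⟨x, hx, fun y hy => Or.inl (by rw [h1 x hx, h1 y hy])⟩
  have hl : Lead s (Pi.single 1 1 : G → K) 1 := by
    refine ⟨by rw [Pi.single_eq_same]; exact one_ne_zero, fun y hy => Or.inl ?_⟩
    by_contra h1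
    rw [Pi.single_eq_of_ne h1] at hy
    exact hy rfl
  have := (hφ ⟨_, hmem⟩ 1 hl).1
  exact this rfl

theorem phi_mono {L : Subgroup G} {χ ψ : G → ℝ} {ε ε' : ℝ} (h : ε' ≤ ε) (B : ℝ) :
    (Phi K L χ ψ ε).F B ≤ (Phi K L χ ψ ε').F B :=
  fun _ hT i hi => hT i (lt_of_lt_of_le hi h)

theorem exists_sum {ι : Type*} (T : Type w) [MSys T] (W : Finset ι) (hW : W.Nonempty)
    (f : ι → Ex K G) : ∃ e : Ex K G, (∀ s : Sit G, e.ev s = ∑ i ∈ W, (f i).ev s) ∧
      e.meas T = ∑ i ∈ W, (f i).meas T ∧ (∀ g ∈ e.supp, ∃ i ∈ W, g ∈ (f i).supp) ∧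
      ∀ (χ : G → ℝ) (r : ℝ), (∀ i ∈ W, (f i).Hom χ r) → e.Hom χ r := by
  classical
  induction hW using Finset.Nonempty.cons_induction with
  | singleton i =>
    refine ⟨f i, fun s => by rw [Finset.sum_singleton], by rw [Finset.sum_singleton],
      fun g hg => ⟨i, Finset.mem_singleton_self i, hg⟩,
      fun χ r h => h i (Finset.mem_singleton_self i)⟩
  | cons i W hi hW ih =>
    obtain ⟨e, h1, h2, h3, h4⟩ := ih
    refine ⟨.add (f i) e, fun s => ?_, ?_, ?_, ?_⟩
    · rw [Finset.sum_cons, ← h1 s]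
      rfl
    · rw [Finset.sum_cons, ← h2]
      rfl
    · rintro g (hg | hg)
      · exact ⟨i, Finset.mem_cons_self i W, hg⟩
      · obtain ⟨j, hj, hj'⟩ := h3 g hg
        exact ⟨j, Finset.mem_cons_of_mem hj, hj'⟩
    · intro χ r h
      exact ⟨h i (Finset.mem_cons_self i W), h4 χ r fun j hj => h j (Finset.mem_cons_of_mem hj)⟩

/-- the word expressions -/
def wordE (a0 : Ex K G) (c : ℝ → Ex K G) (r0 : ℝ) : List ℝ → Ex K G
  | [] => .inv a0
  | r :: l => .mul (.mul (.mono (-1) 1) (.mul (.inv a0) (c (r - -r0)))) (wordE a0 c r0 l)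

theorem ev_neg_one (s : Sit G) (v : s.V K) : (Ex.mono (-1 : K) (1 : G)).ev s v = -v := by
  change (-1 : K) • (s.tr K 1) v = -v
  rw [tr_one]
  ext x
  change (-1 : K) * v.1 x = -(v.1 x)
  ring

theorem evA_wordE (a0 : Ex K G) (c : ℝ → Ex K G) (r0 : ℝ) (L : Subgroup G) (χ ψ : G → ℝ)
    (l : List ℝ) : (wordE a0 c r0 l).evA L χ ψ =
      (l.map (fun r => -((Ex.inv a0).evA L χ ψ * (c (r - -r0)).evA L χ ψ))).prod *
        (Ex.inv a0).evA L χ ψ := by
  induction l with
  | nil => rw [List.map_nil, List.prod_nil, one_mul]; rfl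
  | cons r l ih =>
    rw [List.map_cons, List.prod_cons, mul_assoc, ← ih]
    funext i
    apply LinearMap.ext
    intro v
    change (Ex.mono (-1 : K) (1 : G)).ev i.s ((Ex.inv a0).ev i.s ((c (r - -r0)).ev i.s
      ((wordE a0 c r0 l).ev i.s v))) = -((Ex.inv a0).ev i.s ((c (r - -r0)).ev i.s
      ((wordE a0 c r0 l).ev i.s v)))
    rw [ev_neg_one]

theorem hom_wordE {L : Subgroup G} {χ : G → ℝ} (hχ : IsChar L χ) (a0 : Ex K G) (c : ℝ → Ex K G)
    (r0 : ℝ) (h0 : a0.Hom χ r0) (l : List ℝ) (hl : ∀ r ∈ l, (c (r - -r0)).Hom χ (r - -r0)) :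
    (wordE a0 c r0 l).Hom χ (l.sum - r0) := by
  have hinv : (Ex.inv a0).Hom χ (-r0) := by
    change a0.Hom χ (- -r0)
    rwa [neg_neg]
  induction l with
  | nil =>
    rw [List.sum_nil, zero_sub]
    exact hinv
  | cons r l ih =>
    refine ⟨r, l.sum - r0, ?_, ⟨0, r, zero_add r, char_one hχ, -r0, r - -r0, by ring, hinv,
      hl r List.mem_cons_self⟩, ih fun s hs => hl s (List.mem_cons_of_mem _ hs)⟩
    rw [List.sum_cons]
    ring

theorem supp_wordE {L : Subgroup G} (a0 : Ex K G) (c : ℝ → Ex K G)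
    (r0 : ℝ) (h0 : ∀ g ∈ a0.supp, g ∈ L) (l : List ℝ)
    (hl : ∀ r ∈ l, ∀ g ∈ (c (r - -r0)).supp, g ∈ L) : ∀ g ∈ (wordE a0 c r0 l).supp, g ∈ L := by
  induction l with
  | nil => exact h0
  | cons r l ih =>
    rintro g ((hg | (hg | hg)) | hg)
    · have : g = 1 := hg
      rw [this]
      exact L.one_mem
    · exact h0 g hg
    · exact hl r List.mem_cons_self g hg
    · exact ih (fun s hs => hl s (List.mem_cons_of_mem _ hs)) g hg

theorem meas_wordE {T : Type w} [MSys T] (m : T) (a0 : Ex K G) (c : ℝ → Ex K G)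
    (r0 : ℝ) (h0 : MSys.lt (a0.meas T) m) (l : List ℝ)
    (hl : ∀ r ∈ l, MSys.lt ((c (r - -r0)).meas T) m) :
    MSys.lt ((wordE a0 c r0 l).meas T) (MSys.iv m) := by
  induction l with
  | nil => exact MSys.iv_lt _ _ h0
  | cons r l ih =>
    refine MSys.iv_ml _ _ _ (MSys.iv_ml _ _ _ (MSys.o_lt _) (MSys.iv_ml _ _ _
      (MSys.iv_lt _ _ h0) (MSys.tr _ _ _ (hl r List.mem_cons_self) (MSys.lt_iv _))))
      (ih fun s hs => hl s (List.mem_cons_of_mem _ hs))

end Ops

/-- Row UEI. -/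
theorem st_UEI (hCE : ST_CE.{v}) (hHBD : ST_HBD.{u, v, w}) (hXINV : ST_XINV.{max u v})
    (hXSH : ST_XSH.{max u v}) (hONE : ST_ONE.{u, v}) (hSPH : ST_SPH.{u, v}) :
    ST_UEI.{u, v, w} := by
  classical
  intro K _ G _ T _ hLI X κ hIH a L χ ψ hLX hχ hψ hsupp hκ hnh hUE
  obtain ⟨ε, hε, S, c, _, hc, _, h4', hE⟩ := hUE
  have h4 := h4' hnh
  have haκ : MSys.lt (a.meas T) κ := lt_of_lt_of_mle (MSys.lt_iv _) hκ
  have hPa := hIH a (fun g hg => hLX (hsupp g hg)) haκ
  have hnh' : ∀ r, ¬ (Ex.inv a).Hom χ r := fun r hr => hnh ⟨-r, hr⟩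
  rcases hPa.1 with hZ | hN
  · -- zero case
    refine ⟨1, one_pos, ∅, c, fun r hr => absurd hr (hnh' r),
      fun r hr => absurd hr (Set.notMem_empty r), fun F hF => ?_,
      fun _ r hr => absurd hr (Set.notMem_empty r), ?_⟩
    · have : F = ∅ := by
        ext r
        constructor
        · intro hr
          exact absurd (hF r hr) (Set.notMem_empty r)
        · intro hr
          simp at hr
      rw [this, Finset.sum_empty]
      exact Or.inr (zero_lt_iv _)
    · have : (Ex.inv a).evA L χ ψ = 0 := by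
        funext i
        change Ring.inverse (a.ev i.s) = 0
        rw [hZ i.s fun g hg => i.at'.1 (hsupp g hg)]
        exact Ring.inverse_zero _
      rw [this]
      exact expn_zero _
  · -- main case
    have hPc : ∀ r ∈ S, Pack X (c r) := fun r hr =>
      hIH (c r) (fun g hg => hLX ((hc r hr).1 g hg)) (MSys.tr _ _ _ (h4 r hr) haκ)
    have hex : ∃ r ∈ S, ¬ (c r).Z := by
      by_contra hcon
      push Not at hcon
      have h0 : ∀ B, a.evA L χ ψ ∈ (Phi K L χ ψ ε).F B := fun B => mem_of_expn hE B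
        (fun r hr => by
          have : (c r).evA L χ ψ = 0 := by
            funext i
            exact hcon r hr i.s (fun g hg => i.at'.1 ((hc r hr).1 g hg))
          rw [this]
          exact ((Phi K L χ ψ ε).F B).zero_mem)
      obtain ⟨s, hsM, hsP⟩ := hCE G hLI L χ hχ
      have hat : At s χ L (fun g => χ g + 0 * ψ g) :=
        ⟨hsM.ge, by rw [hsM]; exact hχ, hsP, fun g _ => by ring⟩
      have h1 : a.ev s = 0 := fil_all s (by rw [hsM]; exact hχ) hsP _
        (fun B => h0 B ⟨0, s, χ, hat⟩ (by simpa using hε))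
      exact vc_ne_zero s _ (hN s (fun g hg => hsM.ge (hsupp g hg))) h1
    obtain ⟨r0, hr0S, hr0Z, hr0min⟩ : ∃ r0 ∈ S, ¬ (c r0).Z ∧ ∀ r ∈ S, r < r0 → (c r).Z := by
      obtain ⟨r1, hr1, hr1'⟩ := hex
      have hf : ({r | r ∈ S ∧ ¬ (c r).Z} ∩ Set.Iio (r1 + 1)).Finite :=
        (hE.1 (r1 + 1)).subset (fun r hr => ⟨hr.1.1, hr.2⟩)
      have hmem : ∀ r, r ∈ hf.toFinset ↔ (r ∈ S ∧ ¬ (c r).Z) ∧ r < r1 + 1 := by
        intro r
        rw [Set.Finite.mem_toFinset]
        rfl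
      have hne : hf.toFinset.Nonempty := ⟨r1, (hmem r1).2 ⟨⟨hr1, hr1'⟩, by linarith⟩⟩
      have hm := (hmem _).1 (Finset.min'_mem _ hne)
      refine ⟨_, hm.1.1, hm.1.2, fun r hr hlt => ?_⟩
      by_contra hcon
      have := Finset.min'_le _ _ ((hmem r).2 ⟨⟨hr, hcon⟩, by linarith [hm.2]⟩)
      linarith
    obtain ⟨a0, ha0⟩ : ∃ a0, a0 = c r0 := ⟨_, rfl⟩
    have hN0 : a0.N := by
      rw [ha0]
      exact (hPc r0 hr0S).1.resolve_left hr0Z
    have hsupp0 : ∀ g ∈ a0.supp, g ∈ L := by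
      rw [ha0]
      exact (hc r0 hr0S).1
    have hHom0 : a0.Hom χ r0 := by
      rw [ha0]
      exact (hc r0 hr0S).2
    have hmeas0 : MSys.lt (a0.meas T) (a.meas T) := by
      rw [ha0]
      exact h4 r0 hr0S
    obtain ⟨C, hC⟩ := (hIH a0 (fun g hg => hLX (hsupp0 g hg)) (MSys.tr _ _ _ hmeas0 haκ)).2
      L χ ψ hLX hχ hψ hsupp0 (-r0) (by
        change a0.Hom χ (- -r0)
        rwa [neg_neg])
    have hHBc : ∀ r ∈ S, ∃ C' : ℝ, ∀ i : Idx L χ ψ,
        Fil i.s i.f (r - C' * |i.t|) ((c r).ev i.s) := fun r hr =>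
      hHBD K G T X κ hIH (c r) L χ ψ hLX hχ hψ (hc r hr).1
        (Or.inr (MSys.tr _ _ _ (h4 r hr) haκ)) r (hc r hr).2
    obtain ⟨u, hu'⟩ : ∃ u : Alg K L χ ψ, u = (Ex.inv a0).evA L χ ψ := ⟨_, rfl⟩
    have hun0 : ∀ i : Idx L χ ψ, IsUnit (a0.ev i.s) := fun i =>
      hSPH K G i.s _ (hN0 i.s fun g hg => i.at'.1 (hsupp0 g hg))
    have hun : ∀ i : Idx L χ ψ, IsUnit (a.ev i.s) := fun i =>
      hSPH K G i.s _ (hN i.s fun g hg => i.at'.1 (hsupp g hg))
    have hua0 : u * a0.evA L χ ψ = 1 := by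
      rw [hu']
      funext i
      exact Ring.inverse_mul_cancel _ (hun0 i)
    have ha0u : a0.evA L χ ψ * u = 1 := by
      rw [hu']
      funext i
      exact Ring.mul_inverse_cancel _ (hun0 i)
    have haa : a.evA L χ ψ * (Ex.inv a).evA L χ ψ = 1 := by
      funext i
      exact Ring.mul_inverse_cancel _ (hun i)
    have hu : u ∈ (Phi K L χ ψ (min ε 1)).F (-r0 - |C|) := by
      intro i hi
      rw [hu']
      refine (hC i).anti ?_
      have h1 : |i.t| < 1 := lt_of_lt_of_le hi (min_le_right _ _)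
      have h2 : C * |i.t| ≤ |C| * 1 := by
        calc C * |i.t| ≤ |C| * |i.t| := mul_le_mul_of_nonneg_right (le_abs_self C) (abs_nonneg _)
          _ ≤ |C| * 1 := mul_le_mul_of_nonneg_left h1.le (abs_nonneg _)
      linarith
    have hE1 := (hXSH _ _ _ u S _ _ (-r0) (Expn.mono' (phi_mono (min_le_left ε 1)) hE) hu).2
    have hE2 := expn_eta hE1 (by
        change 0 - -r0 ∈ S
        rw [zero_sub, neg_neg]
        exact hr0S) (by
        change u * (c (0 - -r0)).evA L χ ψ = 1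
        rw [zero_sub, neg_neg, ← ha0]
        exact hua0) (by
        intro r hr hr'
        have hr1 : r - -r0 ∈ S := hr
        have : (c (r - -r0)).evA L χ ψ = 0 := by
          funext i
          exact hr0min _ hr1 (by linarith) i.s fun g hg => i.at'.1 ((hc _ hr1).1 g hg)
        change u * (c (r - -r0)).evA L χ ψ = 0
        rw [this, mul_zero])
    obtain ⟨S', hS'⟩ : ∃ S' : Set ℝ, S' = {r | 0 < r ∧ r ∈ {r | r - -r0 ∈ S}} := ⟨_, rfl⟩
    have hS'pos : ∀ r ∈ S', 0 < r := fun r hr => by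
      rw [hS'] at hr
      exact hr.1
    have hS'S : ∀ r ∈ S', r - -r0 ∈ S := fun r hr => by
      rw [hS'] at hr
      exact hr.2
    rw [← hS'] at hE2
    obtain ⟨y, hy⟩ : ∃ y : ℝ → Alg K L χ ψ, y = fun r => u * (c (r - -r0)).evA L χ ψ := ⟨_, rfl⟩
    rw [← hy] at hE2
    obtain ⟨R, hR⟩ := growth hE2 1
    have hkey : ∀ F : Finset ℝ, (∀ r ∈ F, r ∈ S') → ∃ ε' δ : ℝ, 0 < ε' ∧ 0 < δ ∧
        ∀ r ∈ F, y r ∈ (Phi K L χ ψ ε').F δ := by
      intro F
      induction F using Finset.induction_on with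
      | empty =>
        intro _
        exact ⟨1, 1, one_pos, one_pos, fun r hr => by simp at hr⟩
      | insert r F _ ih =>
        intro hF
        obtain ⟨ε', δ, hε', hδ, h⟩ := ih fun s hs => hF s (Finset.mem_insert_of_mem hs)
        have hr := hF r (Finset.mem_insert_self _ _)
        obtain ⟨C', hC'⟩ := hHBc _ (hS'S r hr)
        have hrpos := hS'pos r hr
        have hden : 0 < |C| + |C'| + 1 := by positivity
        refine ⟨min ε' (r / 2 / (|C| + |C'| + 1)), min δ (r / 2), by positivity,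
          by positivity, ?_⟩
        intro s hs
        rcases Finset.mem_insert.1 hs with rfl | hs
        · intro i hi
          rw [hy]
          have h1 : Fil i.s i.f ((-r0 - C * |i.t|) + (s - -r0 - C' * |i.t|))
              ((Ex.inv a0).ev i.s * (c (s - -r0)).ev i.s) := (hC i).mul (hC' i)
          rw [hu']
          refine Fil.anti ?_ h1
          have h2 : |i.t| < s / 2 / (|C| + |C'| + 1) := lt_of_lt_of_le hi (min_le_right _ _)
          rw [lt_div_iff₀ hden] at h2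
          have h3 : C * |i.t| ≤ |C| * |i.t| :=
            mul_le_mul_of_nonneg_right (le_abs_self C) (abs_nonneg _)
          have h5 : C' * |i.t| ≤ |C'| * |i.t| :=
            mul_le_mul_of_nonneg_right (le_abs_self C') (abs_nonneg _)
          have h6 : 0 ≤ |i.t| := abs_nonneg _
          have h7 : min δ (s / 2) ≤ s / 2 := min_le_right _ _
          nlinarith
        · exact (Phi K L χ ψ _).anti _ _ (min_le_left _ _) (phi_mono (min_le_left _ _) _ (h s hs))
    have hfin : (S' ∩ Set.Iio R).Finite := hE2.1 R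
    obtain ⟨ε2, δ2, hε2, hδ2, hδ⟩ := hkey hfin.toFinset (fun r hr => by
      rw [Set.Finite.mem_toFinset] at hr
      exact hr.1)
    obtain ⟨ε3, hε3⟩ : ∃ ε3, ε3 = min (min ε 1) ε2 := ⟨_, rfl⟩
    obtain ⟨δ, hδdef⟩ : ∃ δ, δ = min 1 δ2 := ⟨_, rfl⟩
    have hε3pos : 0 < ε3 := by rw [hε3]; positivity
    have hδpos : 0 < δ := by rw [hδdef]; positivity
    have hyδ : ∀ r ∈ S', y r ∈ (Phi K L χ ψ ε3).F δ := by
      intro r hr
      rw [hε3, hδdef]
      rcases lt_or_ge r R with h | h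
      · exact (Phi K L χ ψ _).anti _ _ (min_le_right _ _) (phi_mono (min_le_right _ _) _
          (hδ r (by rw [Set.Finite.mem_toFinset]; exact ⟨hr, h⟩)))
      · exact (Phi K L χ ψ _).anti _ _ (min_le_left _ _) (phi_mono (min_le_left _ _) _
          (hR r hr h))
    have hE3 : Expn (Phi K L χ ψ ε3) (u * a.evA L χ ψ - 1) S' y :=
      Expn.mono' (phi_mono (by rw [hε3]; exact min_le_left _ _)) hE2
    have hη := mem_of_expn hE3 δ hyδ
    have hcan : 1 + (u * a.evA L χ ψ - 1) = u * a.evA L χ ψ := can1 (A := Alg K L χ ψ) _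
    have hz1 : (1 + (u * a.evA L χ ψ - 1)) * ((Ex.inv a).evA L χ ψ * a0.evA L χ ψ) = 1 := by
      rw [hcan, mul_assoc, ← mul_assoc (a.evA L χ ψ), haa, one_mul, hua0]
    have hz0 : (Ex.inv a).evA L χ ψ * a0.evA L χ ψ ∈ (Phi K L χ ψ ε3).F 0 := by
      intro i hi
      have h1 := (hONE K G i.s i.f i.at'.2.1 i.at'.2.2.1 δ _ hδpos (hη i hi)).2
      have h2 : ((Ex.inv a).evA L χ ψ * a0.evA L χ ψ) i
          = Ring.inverse (1 + (u * a.evA L χ ψ - 1) i) := by
        have h3 := congrFun hz1 i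
        have h4 : IsUnit (1 + (u * a.evA L χ ψ - 1) i) := by
          have : 1 + (u * a.evA L χ ψ - 1) i = Ring.inverse (a0.ev i.s) * a.ev i.s := by
            have h6 := congrFun hcan i
            rw [hu'] at h6
            rw [hu']
            exact h6
          rw [this]
          exact (IsUnit.ringInverse (hun0 i)).mul (hun i)
        exact (Ring.inverse_mul_cancel_left _ _ h4).symm.trans (by
          have h7 : (1 + (u * a.evA L χ ψ - 1) i) * ((Ex.inv a).evA L χ ψ * a0.evA L χ ψ) i = 1 :=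
            h3
          rw [h7, mul_one])
      rw [h2]
      exact h1
    obtain ⟨hW1, hW2⟩ := hXINV _ (Phi K L χ ψ ε3) _ _ S' y δ hδpos hE3 hS'pos hyδ hz1 hz0
    have hE4 := hW2 (fun s => ∑ l ∈ (hW1 s).toFinset, (l.map (fun r => - y r)).prod) (by
      intro s W hW
      have : (hW1 s).toFinset = W := by
        ext l
        rw [Set.Finite.mem_toFinset, hW l]
        rfl
      rw [this])
    have hE5 := (hXSH _ (Phi K L χ ψ ε3) _ u _ _ (-r0 - |C|) (-r0) hE4
      (phi_mono (by rw [hε3]; exact min_le_left _ _) _ hu)).1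
    rw [mul_assoc, ha0u, mul_one] at hE5
    have hcoef : ∀ s : ℝ, s - -r0 ∈ {s | ∃ l : List ℝ, (∀ r ∈ l, r ∈ S') ∧ l.sum = s} →
        ∃ e : Ex K G, (e.evA L χ ψ =
          (∑ l ∈ (hW1 (s - -r0)).toFinset, (l.map (fun r => - y r)).prod) * u) ∧
          (∀ g ∈ e.supp, g ∈ L) ∧ e.Hom χ s ∧ MSys.lt (e.meas T) (MSys.iv (a.meas T)) := by
      rintro s ⟨l0, hl0, hl0'⟩
      have hmemW : ∀ l, l ∈ (hW1 (s - -r0)).toFinset ↔ (∀ r ∈ l, r ∈ S') ∧ l.sum = s - -r0 := by
        intro l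
        rw [Set.Finite.mem_toFinset]
        rfl
      obtain ⟨e, he1, he2, he3, he4⟩ := exists_sum T (hW1 (s - -r0)).toFinset
        ⟨l0, (hmemW l0).2 ⟨hl0, hl0'⟩⟩ (fun l => wordE a0 c r0 l)
      refine ⟨e, ?_, ?_, ?_, ?_⟩
      · rw [Finset.sum_mul]
        have h1 : e.evA L χ ψ = ∑ l ∈ (hW1 (s - -r0)).toFinset, (wordE a0 c r0 l).evA L χ ψ := by
          funext i
          rw [Finset.sum_apply]
          exact he1 i.s
        rw [h1]
        refine Finset.sum_congr rfl fun l _ => ?_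
        rw [evA_wordE, hy, hu']
      · intro g hg
        obtain ⟨l, hl, hg'⟩ := he3 g hg
        rw [hmemW] at hl
        exact supp_wordE a0 c r0 hsupp0 l (fun r hr => (hc _ (hS'S r (hl.1 r hr))).1) g hg'
      · refine he4 χ s fun l hl => ?_
        rw [hmemW] at hl
        have h1 := hom_wordE hχ a0 c r0 hHom0 l (fun r hr => (hc _ (hS'S r (hl.1 r hr))).2)
        have h2 : l.sum - r0 = s := by rw [hl.2]; ring
        rwa [h2] at h1
      · rw [he2]
        refine sum_lt_iv _ _ _ fun l hl => ?_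
        rw [hmemW] at hl
        exact meas_wordE _ a0 c r0 hmeas0 l (fun r hr => h4 _ (hS'S r (hl.1 r hr)))
    have : Nonempty (Ex K G) := ⟨a⟩
    choose! c' hc' using hcoef
    refine ⟨ε3, hε3pos, _, c', fun r hr => absurd hr (hnh' r),
      fun r hr => ⟨(hc' r hr).2.1, (hc' r hr).2.2.1⟩, fun F hF => Or.inr ?_,
      fun _ r hr => (hc' r hr).2.2.2, expn_congr hE5 fun r hr => (hc' r hr).1⟩
    exact sum_lt_iv _ _ _ fun r hr => (hc' r (hF r hr)).2.2.2

end LCH82
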